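import Pool.Agent.K1H31.AW.Clean

/-!
# MP_3fc7b1_an, Q2: every AW*-algebra is a clean ring

`IsAWStar A` (Kaplansky's two conditions: orthogonal families of projections have a least upper
bound in the poset of projections, and every maximal commutative self-adjoint subalgebra is the
norm closed algebra generated by its projections) is defined in `Pool.Agent.R456.CL.Defs`, the
library of the starting files that settles Q1 (infinite factors). No assumption is made on the
center, the type or the size of `A`.

Sketch of the proof. Let `T` be an element of `A`.

1. (Local theorem, `local_nice`.) Every nonzero projection commuting with `T` dominates a nonzero
   projection `q` commuting with `T` which is nice: either (a) there are orthogonal `e, f ≤ q`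
   equivalent to `q` such that `f T e` is invertible from `e` to `f` with an inverse of norm at most
   `320`, or (b) there are a finite projection `k ≤ q` and a scalar `c` with
   `‖(q - k) (T - c) (q - k)‖ ≤ 1/4`.
   If this fails, all reducing projections below `g` are properly infinite, the main dichotomy
   (a central version of the factor case, with `small` replaced by: no nonzero central piece of the
   projection embeds) gives a strictly smaller properly infinite reducing projection, and
   iterating gives a strictly decreasing sequence of infinite cardinals.
2. (Gluing, `clean_all`.) A maximal orthogonal family of nice projections has supremum `1`. The
   pieces of kind (a) are summed (bounded families sum up along orthogonal families in any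
   AW*-algebra, `diag_sum`) and the sum is again of kind (a), hence clean. The pieces of kind (b) are
   summed in the centralizer of the family, an AW*-algebra in which they are central and in which
   the sum of the finite projections `k` is finite, and finite projections are clean.
-/

set_option autoImplicit false

namespace Pool.Agent.Results.MP_3fc7b1_an.AWStarAlgebrasClean

open Pool.Agent.R456.CL Pool.Agent.K1H31.AW

universe u

/-- Every AW*-algebra is clean: each element is the sum of a unit and an idempotent. -/
theorem result (A : Type u) [CStarAlgebra A] (hAW : IsAWStar A) (x : A) :
    ∃ (v : Aˣ) (e : A), e * e = e ∧ x = (v : A) + e := by
  obtain ⟨P, _, _, hPP, h1, h2, y, h3, h4, h5, h6⟩ := clean_all A hAW x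
  exact ⟨⟨x - P, y, h6, h5⟩, P, hPP, by simp⟩

end Pool.Agent.Results.MP_3fc7b1_an.AWStarAlgebrasClean
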